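import Pool.Agent.helper48.AN.SpecD

namespace AN

open scoped Classical

noncomputable section

theorem DE0_cf_hD {R : Type} [CommRing R] (j : ℕ) (f : LS R) (n : ℤ) :
    cf (hD j f) n = ((Ring.choose (n + j) j : ℤ) : R) * cf f (n + j) := rfl

theorem DE0_hD_mp {R S : Type} [CommRing R] [CommRing S] (φ : R →+* S) (j : ℕ) (f : LS R) :
    hD j (mp φ f) = mp φ (hD j f) := by
  ext n
  rw [DE0_cf_hD, cf_mp, cf_mp, DE0_cf_hD, map_mul, map_intCast]

/-- times `j` the identity holds -/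
theorem DE0_mul (hDA : DA_stmt) {R : Type} [CommRing R] (f x : LS R) (j : ℕ) (hj : 1 ≤ j) :
    (j : R) * res (hD j f * x ^ j + hD (j - 1) f * x ^ (j - 1) * dd x) = 0 := by
  obtain ⟨m, rfl⟩ : ∃ m, j = m + 1 := ⟨j - 1, by omega⟩
  have h5 := (hDA R).2.2.2.2.1 m f
  have e : LS.C ((m + 1 : ℕ) : R) * (hD (m + 1) f * x ^ (m + 1) + hD m f * x ^ m * dd x) = dd (hD m f * x ^ (m + 1)) := by
    rw [dd_mul, h5, dd_pow, map_natCast]
    push_cast
    ring
  have : ((m + 1 : ℕ) : R) * res (hD (m + 1) f * x ^ (m + 1) + hD m f * x ^ m * dd x) =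
      res (LS.C ((m + 1 : ℕ) : R) * (hD (m + 1) f * x ^ (m + 1) + hD m f * x ^ m * dd x)) := by
    unfold res
    rw [cf_C_mul]
  simp only [Nat.add_sub_cancel]
  rw [this, e, res_dd]

/-- lifting of Laurent series to `ℤ[X_r : r ∈ R]` -/
theorem DE0_lift {R : Type} [CommRing R] (f : LS R) :
    ∃ f' : LS (MvPolynomial R ℤ), mp (MvPolynomial.aeval (R := ℤ) (id : R → R)).toRingHom f' = f := by
  obtain ⟨N, hN⟩ := exists_lb f
  refine ⟨ofFun (fun n => if cf f n = 0 then 0 else MvPolynomial.X (cf f n)) N fun n hn => if_pos (hN n hn), ?_⟩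
  ext n
  rw [cf_mp, cf_ofFun]
  by_cases h : cf f n = 0
  · rw [if_pos h, h, map_zero]
  · rw [if_neg h]
    show MvPolynomial.aeval (R := ℤ) (id : R → R) (MvPolynomial.X (cf f n)) = cf f n
    rw [MvPolynomial.aeval_X]
    rfl

theorem DE0 (hDA : DA_stmt) : DE0_stmt := by
  intro R _ f x j hj
  obtain ⟨f', hf⟩ := DE0_lift f
  obtain ⟨x', hx⟩ := DE0_lift x
  have h0 : res (hD j f' * x' ^ j + hD (j - 1) f' * x' ^ (j - 1) * dd x') = 0 := by
    have h1 := DE0_mul hDA f' x' j hj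
    rcases mul_eq_zero.mp h1 with h2 | h2
    · exfalso
      have h3 : j = 0 := by exact_mod_cast h2
      omega
    · exact h2
  have h4 := congrArg (MvPolynomial.aeval (R := ℤ) (id : R → R)).toRingHom h0
  rw [← res_mp, map_zero, map_add, map_mul, map_mul, map_mul, map_pow, map_pow, ← DE0_hD_mp, ← DE0_hD_mp, ← dd_mp, hf,
    hx] at h4
  exact h4

end

end AN
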