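import Pool.Agent.helper48.AN.SpecF

namespace AN

open scoped Classical

noncomputable section

variable {K : Type} [Field K]

/-- the connection `y ↦ y' + a y` -/
def FG3_nab (a : LS K) (y : LS K) : LS K := dd y + a * y

theorem FG3_nab_add (a : LS K) (x y : LS K) : FG3_nab a (x + y) = FG3_nab a x + FG3_nab a y := by
  unfold FG3_nab
  rw [map_add]
  ring

theorem FG3_iter_add (a : LS K) (n : ℕ) (x y : LS K) :
    (FG3_nab a)^[n] (x + y) = (FG3_nab a)^[n] x + (FG3_nab a)^[n] y := by
  induction n generalizing x y with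
  | zero => rfl
  | succ n ih => rw [Function.iterate_succ_apply, Function.iterate_succ_apply, Function.iterate_succ_apply, FG3_nab_add, ih]

theorem FG3_leib (a b : LS K) (n : ℕ) (y z : LS K) : (FG3_nab (a + b))^[n] (y * z) =
    ∑ q ∈ Finset.HasAntidiagonal.antidiagonal n, (n.choose q.1 : LS K) * ((FG3_nab a)^[q.1] y * (FG3_nab b)^[q.2] z) := by
  induction n generalizing y z with
  | zero => simp
  | succ n ih =>
    rw [Function.iterate_succ_apply]
    have h1 : FG3_nab (a + b) (y * z) = FG3_nab a y * z + y * FG3_nab b z := by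
      unfold FG3_nab
      rw [dd_mul]
      ring
    rw [h1, FG3_iter_add, ih, ih]
    have h2 := Finset.sum_antidiagonal_choose_succ_mul (R := LS K)
      (fun i j => (FG3_nab a)^[i] y * (FG3_nab b)^[j] z) n
    rw [h2, add_comm]
    congr 1
    refine Finset.sum_congr rfl fun q hq => ?_
    have h3 : q.1 + q.2 = n := Finset.HasAntidiagonal.mem_antidiagonal.mp hq
    have h4 : n.choose q.1 = n.choose q.2 := by
      rw [← h3]
      exact Nat.choose_symm_add
    rw [h4, Function.iterate_succ_apply]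

theorem FG3_char (p : ℕ) [Fact p.Prime] [CharP K p] (m : ℕ) (h : p ∣ m) : ((m : ℕ) : LS K) = 0 := by
  have : ((m : ℕ) : LS K) = LS.C ((m : ℕ) : K) := (map_natCast LS.C m).symm
  rw [this, (CharP.cast_eq_zero_iff K p m).mpr h, map_zero]

theorem FG3_leibp (p : ℕ) [hp : Fact p.Prime] [CharP K p] (a b y z : LS K) : (FG3_nab (a + b))^[p] (y * z) =
    (FG3_nab a)^[p] y * z + y * (FG3_nab b)^[p] z := by
  rw [FG3_leib, Finset.Nat.sum_antidiagonal_eq_sum_range_succ_mk, Finset.sum_range_succ]
  have hp0 : 0 < p := hp.out.pos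
  obtain ⟨m, rfl⟩ : ∃ m, p = m + 1 := ⟨p - 1, by omega⟩
  rw [Finset.sum_range_succ', Finset.sum_eq_zero]
  · simp only [Nat.sub_zero, Nat.choose_zero_right, Nat.cast_one, Nat.choose_self, Nat.sub_self, one_mul,
      Function.iterate_zero, id_eq]
    ring
  · intro i hi
    rw [FG3_char (m + 1) _ (hp.out.dvd_choose_self (by omega) (by rw [Finset.mem_range] at hi; omega)), zero_mul]

theorem FG3_cf_iter (n : ℕ) (f : LS K) (m : ℤ) : cf ((fun z : LS K => dd z)^[n] f) m =
    (∏ i ∈ Finset.range n, ((m + 1 + i : ℤ) : K)) * cf f (m + n) := by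
  induction n generalizing m with
  | zero => simp
  | succ n ih =>
    rw [Function.iterate_succ_apply', cf_dd, ih, Finset.prod_range_succ']
    have h1 : ∀ i : ℕ, ((m + 1 + ((i + 1 : ℕ) : ℤ) : ℤ) : K) = ((m + 1 + 1 + (i : ℤ) : ℤ) : K) := by
      intro i
      congr 1
      push_cast
      ring
    rw [Finset.prod_congr rfl fun i _ => h1 i]
    have h2 : m + 1 + (n : ℤ) = m + ((n + 1 : ℕ) : ℤ) := by
      push_cast
      ring
    rw [h2]
    have h3 : ((m + 1 + ((0 : ℕ) : ℤ) : ℤ) : K) = ((m + 1 : ℤ) : K) := by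
      congr 1
      simp
    rw [h3]
    ring

theorem FG3_ddp (p : ℕ) [hp : Fact p.Prime] [CharP K p] (f : LS K) : (fun z : LS K => dd z)^[p] f = 0 := by
  ext m
  rw [FG3_cf_iter, cf_zero, Finset.prod_eq_zero (i := ((-(m + 1)) % (p : ℤ)).toNat), zero_mul]
  · rw [Finset.mem_range]
    have h1 : (0 : ℤ) < p := by exact_mod_cast hp.out.pos
    have h2 := Int.emod_lt_of_pos (-(m + 1)) h1
    have h3 := Int.emod_nonneg (-(m + 1)) h1.ne'
    omega
  · have h1 : (0 : ℤ) < p := by exact_mod_cast hp.out.pos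
    have h3 := Int.emod_nonneg (-(m + 1)) h1.ne'
    rw [Int.toNat_of_nonneg h3]
    rw [CharP.intCast_eq_zero_iff K p]
    have h4 := Int.emod_add_mul_ediv (-(m + 1)) (p : ℤ)
    refine ⟨-((-(m + 1)) / (p : ℤ)), ?_⟩
    linarith

/-- the `p`-curvature -/
def FG3_c (p : ℕ) (a : LS K) : LS K := (FG3_nab a)^[p] 1

theorem FG3_nab_zero : FG3_nab (0 : LS K) = fun z : LS K => dd z := by
  funext z
  unfold FG3_nab
  rw [zero_mul, add_zero]

theorem FG3_c_mul (p : ℕ) [hp : Fact p.Prime] [CharP K p] (a y : LS K) : (FG3_nab a)^[p] y = FG3_c p a * y := by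
  have h := FG3_leibp p a 0 1 y
  rw [add_zero, one_mul, FG3_nab_zero, FG3_ddp, mul_zero, add_zero] at h
  exact h

theorem FG3_c_add (p : ℕ) [hp : Fact p.Prime] [CharP K p] (a b : LS K) : FG3_c p (a + b) = FG3_c p a + FG3_c p b := by
  have h := FG3_leibp p a b 1 1
  rw [mul_one, mul_one, one_mul] at h
  exact h

/-- coefficients of the powers of `λ` in `(d/ds + λ a)^n 1` -/
def FG3_Q (a : LS K) : ℕ → ℕ → LS K
  | 0, 0 => 1
  | 0, _ + 1 => 0
  | n + 1, 0 => dd (FG3_Q a n 0)
  | n + 1, j + 1 => dd (FG3_Q a n (j + 1)) + a * FG3_Q a n j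

theorem FG3_Q_big (a : LS K) (n : ℕ) : ∀ j, n < j → FG3_Q a n j = 0 := by
  induction n with
  | zero =>
    intro j hj
    cases j with
    | zero => omega
    | succ j => rfl
  | succ n ih =>
    intro j hj
    cases j with
    | zero => omega
    | succ j =>
      rw [FG3_Q, ih _ (by omega), ih _ (by omega), map_zero, mul_zero, add_zero]

theorem FG3_Q_top (a : LS K) (n : ℕ) : FG3_Q a n n = a ^ n := by
  induction n with
  | zero => rw [FG3_Q, pow_zero]
  | succ n ih => rw [FG3_Q, ih, FG3_Q_big a n (n + 1) (by omega), map_zero, zero_add, pow_succ']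

theorem FG3_Q_zero (a : LS K) (n : ℕ) : FG3_Q a (n + 1) 0 = 0 := by
  induction n with
  | zero =>
    rw [FG3_Q, FG3_Q, dd_one]
  | succ n ih => rw [FG3_Q, ih, map_zero]

theorem FG3_Q_one (a : LS K) (n : ℕ) : FG3_Q a (n + 1) 1 = (fun z : LS K => dd z)^[n] a := by
  induction n with
  | zero =>
    show dd (FG3_Q a 0 1) + a * FG3_Q a 0 0 = a
    rw [FG3_Q, FG3_Q, map_zero, zero_add, mul_one]
  | succ n ih =>
    rw [Function.iterate_succ_apply', ← ih]
    show dd (FG3_Q a (n + 1) 1) + a * FG3_Q a (n + 1) 0 = dd (FG3_Q a (n + 1) 1)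
    rw [FG3_Q_zero, mul_zero, add_zero]

theorem FG3_expand (a : LS K) (l : K) (n : ℕ) : (FG3_nab (l • a))^[n] 1 =
    ∑ j ∈ Finset.range (n + 1), l ^ j • FG3_Q a n j := by
  induction n with
  | zero =>
    rw [Function.iterate_zero, Finset.sum_range_one, pow_zero, one_smul, FG3_Q, id_eq]
  | succ n ih =>
    rw [Function.iterate_succ_apply', ih, FG3_nab, map_sum, Finset.mul_sum]
    rw [Finset.sum_range_succ' _ (n + 1)]
    have e1 : ∀ j ∈ Finset.range (n + 1), l ^ (j + 1) • FG3_Q a (n + 1) (j + 1) =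
        l ^ (j + 1) • dd (FG3_Q a n (j + 1)) + (l • a) * (l ^ j • FG3_Q a n j) := by
      intro j _
      rw [FG3_Q, smul_add, smul_mul_smul_comm, pow_succ']
    rw [Finset.sum_congr rfl e1, Finset.sum_add_distrib]
    have e2 : ∑ j ∈ Finset.range (n + 1), dd (l ^ j • FG3_Q a n j) =
        ∑ j ∈ Finset.range (n + 1), l ^ (j + 1) • dd (FG3_Q a n (j + 1)) + l ^ 0 • FG3_Q a (n + 1) 0 := by
      show _ = ∑ j ∈ Finset.range (n + 1), l ^ (j + 1) • dd (FG3_Q a n (j + 1)) + l ^ 0 • dd (FG3_Q a n 0)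
      rw [← Finset.sum_range_succ' (fun j => l ^ j • dd (FG3_Q a n j)) (n + 1), Finset.sum_range_succ _ (n + 1)]
      rw [FG3_Q_big a n (n + 1) (by omega), map_zero, smul_zero, add_zero]
      refine Finset.sum_congr rfl fun j _ => ?_
      rw [map_smul]
    rw [e2]
    abel

/-- additive polynomials -/
theorem FG3_addpol [Infinite K] (f : Polynomial K) (hf : ∀ x y, f.eval (x + y) = f.eval x + f.eval y) (j : ℕ)
    (hj : 2 ≤ j) (hjK : (j : K) ≠ 0) : f.coeff j = 0 := by
  have h1 : ∀ y : K, f.comp (Polynomial.X + Polynomial.C y) = f + Polynomial.C (f.eval y) := by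
    intro y
    apply Polynomial.funext
    intro x
    simp [hf]
  have h2 : ∀ y : K, f.derivative.eval y = f.derivative.eval 0 := by
    intro y
    have h3 := congrArg (fun q => (Polynomial.derivative q).eval 0) (h1 y)
    simp only [Polynomial.derivative_comp, Polynomial.derivative_add, Polynomial.derivative_X,
      Polynomial.derivative_C, add_zero, Polynomial.eval_comp, Polynomial.eval_add,
      Polynomial.eval_X, Polynomial.eval_C, zero_add, one_mul] at h3
    exact h3
  have h4 : f.derivative = Polynomial.C (f.derivative.eval 0) := by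
    apply Polynomial.funext
    intro x
    rw [Polynomial.eval_C, h2]
  have h5 := Polynomial.coeff_derivative f (j - 1)
  rw [h4, Polynomial.coeff_C, if_neg (by omega), show j - 1 + 1 = j by omega] at h5
  have h6 : ((j - 1 : ℕ) : K) + 1 = (j : K) := by
    have : j = j - 1 + 1 := by omega
    conv_rhs => rw [this]
    push_cast
    rfl
  rw [h6] at h5
  rcases mul_eq_zero.mp h5.symm with h | h
  · exact h
  · exact absurd h hjK

theorem FG3_c_eq (p : ℕ) [hp : Fact p.Prime] [CharP K p] [Infinite K] (a : LS K) :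
    FG3_c p a = (fun z : LS K => dd z)^[p - 1] a + a ^ p := by
  have hp2 : 2 ≤ p := hp.out.two_le
  have hmid : ∀ j, 2 ≤ j → j < p → FG3_Q a p j = 0 := by
    intro j hj hjp
    ext m
    let f : Polynomial K := ∑ j ∈ Finset.range (p + 1), Polynomial.monomial j (cf (FG3_Q a p j) m)
    have hfe : ∀ l : K, f.eval l = cf (FG3_c p (l • a)) m := by
      intro l
      rw [FG3_c, FG3_expand, cf_sum, Polynomial.eval_finsetSum]
      refine Finset.sum_congr rfl fun i _ => ?_
      rw [Polynomial.eval_monomial, cf_smul, mul_comm]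
    have hfa : ∀ x y, f.eval (x + y) = f.eval x + f.eval y := by
      intro x y
      rw [hfe, hfe, hfe, add_smul, FG3_c_add, cf_add]
    have hjK : (j : K) ≠ 0 := by
      rw [Ne, CharP.cast_eq_zero_iff K p]
      intro h
      have := Nat.le_of_dvd (by omega) h
      omega
    have h := FG3_addpol f hfa j hj hjK
    rw [Polynomial.finsetSum_coeff] at h
    simp only [Polynomial.coeff_monomial] at h
    rw [Finset.sum_ite_eq', if_pos (by rw [Finset.mem_range]; omega)] at h
    rw [h, cf_zero]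
  have h1 := FG3_expand a 1 p
  rw [one_smul] at h1
  rw [FG3_c, h1]
  simp only [one_pow, one_smul]
  rw [Finset.sum_range_succ, FG3_Q_top]
  congr 1
  obtain ⟨m, rfl⟩ : ∃ m, p = m + 2 := ⟨p - 2, by omega⟩
  rw [Finset.sum_range_succ', Finset.sum_range_succ', Finset.sum_eq_zero]
  · show 0 + FG3_Q a (m + 1 + 1) (0 + 1) + FG3_Q a (m + 1 + 1) 0 = _
    rw [zero_add, zero_add, FG3_Q_zero, FG3_Q_one, add_zero]
    rfl
  · intro i hi
    rw [Finset.mem_range] at hi
    exact hmid _ (by omega) (by omega)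

theorem FG3 : FG3_stmt := by
  intro p _ K _ _ _ η y
  have h0 : FG3_c p (0 : LS K) = 0 := by
    have := FG3_c_add p (0 : LS K) 0
    rw [add_zero] at this
    simpa using this
  have h1 : FG3_c p (-η) = -FG3_c p η := by
    have h := FG3_c_add p (-η) η
    rw [neg_add_cancel, h0] at h
    exact eq_neg_of_add_eq_zero_left h.symm
  have h2 : (conn η : LS K → LS K) = FG3_nab (-η) := by
    funext z
    show dd z - η * z = dd z + -η * z
    ring
  rw [h2, FG3_c_mul, h1, FG3_c_eq]

end

end AN
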